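import Pool.Agent.N969.Den.Close

/-!
# Project JT: densities for a criterion in an arbitrary class of the squarefree integers
-/

set_option autoImplicit false
set_option linter.all false

open scoped Classical

namespace Pool.Agent.N963.JT

open Finset Filter
open Pool.Agent.N919.BS (NN NS NF HG NS_eq NF_eq low1)

/-- the difference, squarefree integers -/
theorem NS_diff {P G : ℤ → Prop} {c : ℝ} (hG : HG P G c) {ε : ℝ} (hε : 0 < ε) :
    ∃ X₀ : ℕ, ∀ X : ℕ, X₀ ≤ X →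
      |(NS (fun d => P d ∧ G d) X : ℝ) - c * (NS P X : ℝ)| ≤ ε * X := by
  obtain ⟨X₀, hX₀⟩ := hG.all (ε := ε / 8) (by positivity)
  refine ⟨X₀, fun X hX => ?_⟩
  have a := hX₀ X hX
  have e1 := a 1 1 1 1 (Or.inl rfl) (Or.inl rfl) (Or.inl rfl) le_rfl (by norm_num)
  have e2 := a 1 1 3 1 (Or.inl rfl) (Or.inl rfl) (Or.inr rfl) le_rfl (by norm_num)
  have e3 := a 1 2 1 2 (Or.inl rfl) (Or.inr rfl) (Or.inl rfl) (by norm_num) (by norm_num)
  have e4 := a 1 2 3 2 (Or.inl rfl) (Or.inr rfl) (Or.inr rfl) (by norm_num) (by norm_num)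
  have e5 := a (-1) 1 1 1 (Or.inr rfl) (Or.inl rfl) (Or.inl rfl) le_rfl (by norm_num)
  have e6 := a (-1) 1 3 1 (Or.inr rfl) (Or.inl rfl) (Or.inr rfl) le_rfl (by norm_num)
  have e7 := a (-1) 2 1 2 (Or.inr rfl) (Or.inr rfl) (Or.inl rfl) (by norm_num) (by norm_num)
  have e8 := a (-1) 2 3 2 (Or.inr rfl) (Or.inr rfl) (Or.inr rfl) (by norm_num) (by norm_num)
  rw [Nat.div_one] at e1 e2 e5 e6
  rw [NS_eq, NS_eq]
  push_cast
  rw [abs_le] at e1 e2 e3 e4 e5 e6 e7 e8 ⊢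
  constructor
  · linarith [e1.1, e2.1, e3.1, e4.1, e5.1, e6.1, e7.1, e8.1]
  · linarith [e1.2, e2.2, e3.2, e4.2, e5.2, e6.2, e7.2, e8.2]

/-- the difference, fundamental discriminants -/
theorem NF_diff {P G : ℤ → Prop} {c : ℝ} (hG : HG P G c) {ε : ℝ} (hε : 0 < ε) :
    ∃ X₀ : ℕ, ∀ X : ℕ, X₀ ≤ X →
      |(NF (fun d => P d ∧ G d) X : ℝ) - c * (NF P X : ℝ)| ≤ ε * X := by
  obtain ⟨X₀, hX₀⟩ := hG.all (ε := ε / 8) (by positivity)
  refine ⟨X₀, fun X hX => ?_⟩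
  have a := hX₀ X hX
  have e1 := a 1 1 1 1 (Or.inl rfl) (Or.inl rfl) (Or.inl rfl) le_rfl (by norm_num)
  have e2 := a 1 1 3 4 (Or.inl rfl) (Or.inl rfl) (Or.inr rfl) (by norm_num) (by norm_num)
  have e3 := a 1 2 1 8 (Or.inl rfl) (Or.inr rfl) (Or.inl rfl) (by norm_num) (by norm_num)
  have e4 := a 1 2 3 8 (Or.inl rfl) (Or.inr rfl) (Or.inr rfl) (by norm_num) (by norm_num)
  have e5 := a (-1) 1 1 4 (Or.inr rfl) (Or.inl rfl) (Or.inl rfl) (by norm_num) (by norm_num)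
  have e6 := a (-1) 1 3 1 (Or.inr rfl) (Or.inl rfl) (Or.inr rfl) le_rfl (by norm_num)
  have e7 := a (-1) 2 1 8 (Or.inr rfl) (Or.inr rfl) (Or.inl rfl) (by norm_num) (by norm_num)
  have e8 := a (-1) 2 3 8 (Or.inr rfl) (Or.inr rfl) (Or.inr rfl) (by norm_num) (by norm_num)
  rw [Nat.div_one] at e1 e6
  rw [NF_eq, NF_eq]
  push_cast
  rw [abs_le] at e1 e2 e3 e4 e5 e6 e7 e8 ⊢
  constructor
  · linarith [e1.1, e2.1, e3.1, e4.1, e5.1, e6.1, e7.1, e8.1]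
  · linarith [e1.2, e2.2, e3.2, e4.2, e5.2, e6.2, e7.2, e8.2]

/-- a small difference, divided by `X` -/
theorem over_X {A B : ℕ → ℕ} {c : ℝ}
    (h : ∀ ε : ℝ, 0 < ε → ∃ X₀ : ℕ, ∀ X : ℕ, X₀ ≤ X → |(A X : ℝ) - c * (B X : ℝ)| ≤ ε * X) :
    Tendsto (fun X : ℕ => ((A X : ℝ) - c * (B X : ℝ)) / (X : ℝ)) atTop (nhds 0) := by
  rw [Metric.tendsto_atTop]
  intro ε hε
  obtain ⟨X₀, hX₀⟩ := h (ε / 2) (by positivity)
  refine ⟨max X₀ 1, fun X hX => ?_⟩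
  have h1 := hX₀ X ((le_max_left _ _).trans hX)
  have hX1 : 1 ≤ X := (le_max_right _ _).trans hX
  have hXp : (0 : ℝ) < X := by
    have : 0 < X := by omega
    exact_mod_cast this
  rw [Real.dist_eq, sub_zero, abs_div, abs_of_pos hXp, div_lt_iff₀ hXp]
  have : ε / 2 * (X : ℝ) < ε * X := by
    apply mul_lt_mul_of_pos_right _ hXp
    linarith
  linarith

/-- a lower bound for the number of squarefree integers and the number of fundamental discriminants -/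
theorem low_T : ∃ (c₁ : ℝ) (X₁ : ℕ), 0 < c₁ ∧ ∀ X : ℕ, X₁ ≤ X →
    c₁ * X ≤ (NS (fun _ => True) X : ℝ) ∧ c₁ * X ≤ (NF (fun _ => True) X : ℝ) := by
  obtain ⟨c₁, X₁, hc₁, hlow⟩ := low1
  refine ⟨c₁, X₁, hc₁, fun X hX => ⟨(hlow X hX).trans ?_, (hlow X hX).trans ?_⟩⟩
  · rw [NS_eq]
    exact_mod_cast (by omega)
  · rw [NF_eq]
    exact_mod_cast (by omega)

/-- a small difference, divided by the number of all `d` -/
theorem over_T {A B T : ℕ → ℕ} {c c₁ : ℝ} {X₁ : ℕ} (hc₁ : 0 < c₁)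
    (hlow : ∀ X : ℕ, X₁ ≤ X → c₁ * X ≤ (T X : ℝ))
    (h : ∀ ε : ℝ, 0 < ε → ∃ X₀ : ℕ, ∀ X : ℕ, X₀ ≤ X → |(A X : ℝ) - c * (B X : ℝ)| ≤ ε * X) :
    Tendsto (fun X : ℕ => (A X : ℝ) / (T X : ℝ) - c * ((B X : ℝ) / (T X : ℝ))) atTop (nhds 0) := by
  rw [Metric.tendsto_atTop]
  intro ε hε
  obtain ⟨X₀, hX₀⟩ := h (ε / 2 * c₁) (by positivity)
  refine ⟨max X₀ (X₁ + 1), fun X hX => ?_⟩
  have h1 := hX₀ X ((le_max_left _ _).trans hX)
  have hX1 : X₁ + 1 ≤ X := (le_max_right _ _).trans hX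
  have h2 := hlow X (by omega)
  have hXp : (0 : ℝ) < X := by
    have : 0 < X := by omega
    exact_mod_cast this
  have hT0 : (0 : ℝ) < (T X : ℝ) := by
    have : 0 < c₁ * X := by positivity
    linarith
  have e : (A X : ℝ) / (T X : ℝ) - c * ((B X : ℝ) / (T X : ℝ)) =
      ((A X : ℝ) - c * (B X : ℝ)) / (T X : ℝ) := by ring
  rw [Real.dist_eq, sub_zero, e, abs_div, abs_of_pos hT0, div_lt_iff₀ hT0]
  have h4 : ε / 2 * c₁ * X ≤ ε / 2 * (T X : ℝ) := by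
    calc ε / 2 * c₁ * X = ε / 2 * (c₁ * X) := by ring
      _ ≤ ε / 2 * (T X : ℝ) := by gcongr
  have h5 : ε / 2 * (T X : ℝ) < ε * (T X : ℝ) := by
    apply mul_lt_mul_of_pos_right _ hT0
    linarith
  linarith

/-- the two ratios -/
theorem ratios {A B T : ℕ → ℕ} {c ρ : ℝ}
    (h0 : Tendsto (fun X : ℕ => (A X : ℝ) / (T X : ℝ) - c * ((B X : ℝ) / (T X : ℝ))) atTop (nhds 0))
    (hB : Tendsto (fun X : ℕ => (B X : ℝ) / (T X : ℝ)) atTop (nhds ρ)) (hρ : 0 < ρ)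
    (hT : Tendsto (fun X : ℕ => (T X : ℝ)) atTop atTop) :
    Tendsto (fun X : ℕ => (A X : ℝ) / (T X : ℝ)) atTop (nhds (c * ρ)) ∧
    Tendsto (fun X : ℕ => (A X : ℝ) / (B X : ℝ)) atTop (nhds c) := by
  have h1 : Tendsto (fun X : ℕ => (A X : ℝ) / (T X : ℝ)) atTop (nhds (c * ρ)) := by
    have h := h0.add (hB.const_mul c)
    rw [zero_add] at h
    refine h.congr fun X => ?_
    ring
  refine ⟨h1, ?_⟩
  have h := h1.div hB hρ.ne'
  rw [mul_div_assoc, div_self hρ.ne', mul_one] at h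
  refine h.congr' ?_
  filter_upwards [hT.eventually_gt_atTop 0] with X hX
  show (A X : ℝ) / T X / ((B X : ℝ) / T X) = (A X : ℝ) / B X
  rw [div_div_div_cancel_right₀ hX.ne']

/-- **squarefree integers** -/
theorem dens_NS {P G : ℤ → Prop} {c ρ : ℝ} (hG : HG P G c) (hρ : 0 < ρ)
    (hP : Tendsto (fun X : ℕ => (NS P X : ℝ) / (NS (fun _ => True) X : ℝ)) atTop (nhds ρ)) :
    Tendsto (fun X : ℕ => (NS (fun d => P d ∧ G d) X : ℝ) / (NS (fun _ => True) X : ℝ)) atTop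
      (nhds (c * ρ)) ∧
    Tendsto (fun X : ℕ => (NS (fun d => P d ∧ G d) X : ℝ) / (NS P X : ℝ)) atTop (nhds c) := by
  obtain ⟨c₁, X₁, hc₁, hlow⟩ := low_T
  exact ratios (over_T hc₁ (fun X hX => (hlow X hX).1) fun ε hε => NS_diff hG hε) hP hρ
    Pool.Agent.N969.Den.NS_top

/-- **fundamental discriminants** -/
theorem dens_NF {P G : ℤ → Prop} {c ρ : ℝ} (hG : HG P G c) (hρ : 0 < ρ)
    (hP : Tendsto (fun X : ℕ => (NF P X : ℝ) / (NF (fun _ => True) X : ℝ)) atTop (nhds ρ)) :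
    Tendsto (fun X : ℕ => (NF (fun d => P d ∧ G d) X : ℝ) / (NF (fun _ => True) X : ℝ)) atTop
      (nhds (c * ρ)) ∧
    Tendsto (fun X : ℕ => (NF (fun d => P d ∧ G d) X : ℝ) / (NF P X : ℝ)) atTop (nhds c) := by
  obtain ⟨c₁, X₁, hc₁, hlow⟩ := low_T
  exact ratios (over_T hc₁ (fun X hX => (hlow X hX).2) fun ε hε => NF_diff hG hε) hP hρ
    Pool.Agent.N969.Den.NF_top

/-- in an arbitrary class, divided by `X`: squarefree integers -/
theorem cls_NS {P G : ℤ → Prop} {c : ℝ} (hG : HG P G c) :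
    Tendsto (fun X : ℕ => ((NS (fun d => P d ∧ G d) X : ℝ) - c * (NS P X : ℝ)) / (X : ℝ)) atTop
      (nhds 0) := over_X fun ε hε => NS_diff hG hε

/-- in an arbitrary class, divided by `X`: fundamental discriminants -/
theorem cls_NF {P G : ℤ → Prop} {c : ℝ} (hG : HG P G c) :
    Tendsto (fun X : ℕ => ((NF (fun d => P d ∧ G d) X : ℝ) - c * (NF P X : ℝ)) / (X : ℝ)) atTop
      (nhds 0) := over_X fun ε hε => NF_diff hG hε

end Pool.Agent.N963.JT
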