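import Pool.Agent.N916.MO.Hg
import Pool.Agent.N916.PQ.Fin15
import Pool.Agent.N963.JT.Den

/-!
# Project JT: the joint law in every residue class
-/

set_option autoImplicit false
set_option linter.all false

open scoped Classical

namespace Pool.Agent.N963.JT

open Finset Filter
open Pool.Agent.N919.BS (NN NS NF HG Rt17)
open Pool.Agent.N916.PQ (PM pm_all hg_one f15 f15_pos f15_neg per3 per5)
open Pool.Agent.N809.PQ (Sg15 B3 B5)
open Pool.Agent.N916.MO (G17)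
open Pool.Agent.N916.GB (eta)
open Pool.Agent.Y703.CQ (c2)
open Pool.Agent.N916.AM (LAH)

/-- The joint hypothesis LAH for all moduli and all sets of residues with both root numbers `+ 1`. -/
def JL : Prop := ∀ (s' : ℤ) (k c : ℕ) (t : Bool) (r s : ZMod 2), PM s' k c t r s →
  ∀ M : ℕ, 2040 ∣ M → 0 < M → ∀ K : Finset ℕ,
    (∀ a ∈ K, a % 4 = c ∧ f15 (s' * (k * a : ℕ)) = true ∧ Rt17 (s' * (k * a : ℕ))) →
    LAH M K (fun S => Sg15 (s' * (k * ∏ v ∈ S, v : ℕ)) ∧ G17 (s' * (k * ∏ v ∈ S, v : ℕ))) (eta * c2)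

theorem ec01 : 0 ≤ eta * c2 ∧ eta * c2 ≤ 1 := by
  obtain ⟨h1, h2⟩ := Pool.Agent.N916.PQ.eta01
  obtain ⟨h3, h4⟩ := Pool.Agent.N916.MO.c201
  exact ⟨mul_nonneg h1 h3, mul_le_one₀ h2 h3 h4⟩

/-- invariance within one sign -/
def Sp (M : ℕ) (P : ℤ → Prop) : Prop := ∀ a b : ℤ, ((0 < a ∧ 0 < b) ∨ (a < 0 ∧ b < 0)) →
  a % M = b % M → (P a ↔ P b)

theorem sp_f15 {M : ℕ} (h : 15 ∣ M) : Sp M fun d => f15 d = true := by
  intro a b hab hM
  have h15 : a % (15 : ℕ) = b % (15 : ℕ) := by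
    have h1 : ((15 : ℕ) : ℤ) ∣ M := Int.natCast_dvd_natCast.2 h
    rw [← Int.emod_emod_of_dvd a h1, hM, Int.emod_emod_of_dvd b h1]
  have e3 := per3 a b h15
  have e5 := per5 a b h15
  show f15 a = true ↔ f15 b = true
  rcases hab with ⟨h1, h2⟩ | ⟨h1, h2⟩
  · rw [f15_pos h1, f15_pos h2, e3, e5]
  · rw [f15_neg h1, f15_neg h2, e3, e5]

theorem sp_rt {M : ℕ} (h : 17 ∣ M) : Sp M Rt17 := by
  intro a b hab hM
  have h17 : a % (17 : ℕ) = b % (17 : ℕ) := by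
    have h1 : ((17 : ℕ) : ℤ) ∣ M := Int.natCast_dvd_natCast.2 h
    rw [← Int.emod_emod_of_dvd a h1, hM, Int.emod_emod_of_dvd b h1]
  have hj : jacobiSym a 17 = jacobiSym b 17 := jacobiSym.mod_left' h17
  unfold Pool.Agent.N919.BS.Rt17
  rw [hj]
  rcases hab with ⟨h1, h2⟩ | ⟨h1, h2⟩
  · have e1 : ¬ a < 0 := by omega
    have e2 : ¬ b < 0 := by omega
    simp only [h1, h2, e1, e2]
  · have e1 : ¬ 0 < a := by omega
    have e2 : ¬ 0 < b := by omega
    simp only [h1, h2, e1, e2]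

theorem sp_mod {M m : ℕ} (h : m ∣ M) (A : Set ℤ) : Sp M fun d => d % (m : ℤ) ∈ A := by
  intro a b _ hM
  have h1 : ((m : ℕ) : ℤ) ∣ M := Int.natCast_dvd_natCast.2 h
  have : a % (m : ℤ) = b % (m : ℤ) := by
    rw [← Int.emod_emod_of_dvd a h1, hM, Int.emod_emod_of_dvd b h1]
  show a % (m : ℤ) ∈ A ↔ b % (m : ℤ) ∈ A
  rw [this]

theorem Sp.and {M : ℕ} {P Q : ℤ → Prop} (hP : Sp M P) (hQ : Sp M Q) : Sp M fun d => P d ∧ Q d :=
  fun a b h h' => and_congr (hP a b h h') (hQ a b h h')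

/-- the class of residues -/
noncomputable def KC (M : ℕ) (P : ℤ → Prop) (s' : ℤ) (k c : ℕ) : Finset ℕ :=
  (range M).filter fun a => a % 4 = c ∧ P (s' * (k * a : ℕ))

theorem KC_prop {M : ℕ} {P : ℤ → Prop} {s' : ℤ} {k c a : ℕ} (h : a ∈ KC M P s' k c) :
    a % 4 = c ∧ P (s' * (k * a : ℕ)) := by
  unfold KC at h
  exact (mem_filter.1 h).2

theorem mem_KC {M : ℕ} (hM : 0 < M) (h4 : 4 ∣ M) {P : ℤ → Prop} (hP : Sp M P) {s' : ℤ} {k c : ℕ}
    (hs : s' = 1 ∨ s' = -1) (hk : k = 1 ∨ k = 2) (hc : c = 1 ∨ c = 3) {n : ℕ} (hn : 0 < n) :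
    n % M ∈ KC M P s' k c ↔ n % 4 = c ∧ P (s' * (k * n : ℕ)) := by
  unfold KC
  rw [mem_filter, mem_range, Nat.mod_mod_of_dvd _ h4]
  constructor
  · rintro ⟨h1, h2, h3⟩
    refine ⟨h2, ?_⟩
    have h5 : 0 < n % M := by
      have h6 := Nat.mod_mod_of_dvd n h4
      rcases hc with h | h <;> omega
    refine (hP _ _ ?_ ?_).1 h3
    · rcases hs with h | h <;> rcases hk with h' | h' <;> rw [h, h'] <;> push_cast <;> omega
    · have h2 : ((n : ℤ) % M) % M = (n : ℤ) % M := Int.emod_emod_of_dvd _ (dvd_refl _)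
      push_cast
      rw [Int.mul_emod s', Int.mul_emod (k : ℤ), h2, ← Int.mul_emod (k : ℤ), ← Int.mul_emod s']
  · rintro ⟨h2, h3⟩
    have h5 : 0 < n % M := by
      have h6 := Nat.mod_mod_of_dvd n h4
      rcases hc with h | h <;> omega
    refine ⟨Nat.mod_lt _ hM, h2, (hP _ _ ?_ ?_).2 h3⟩
    · rcases hs with h | h <;> rcases hk with h' | h' <;> rw [h, h'] <;> push_cast <;> omega
    · have h2 : ((n : ℤ) % M) % M = (n : ℤ) % M := Int.emod_emod_of_dvd _ (dvd_refl _)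
      push_cast
      rw [Int.mul_emod s', Int.mul_emod (k : ℤ), h2, ← Int.mul_emod (k : ℤ), ← Int.mul_emod s']

/-- **the joint law in every residue class** -/
theorem hg_cls (hJ : JL) {m : ℕ} (hm : 0 < m) (A : Set ℤ) :
    HG (fun d => (f15 d = true ∧ Rt17 d) ∧ d % (m : ℤ) ∈ A) (fun d => Sg15 d ∧ G17 d)
      (eta * c2) := by
  intro s' k c hs hk hc
  obtain ⟨t, r, s, H⟩ := pm_all hs hk hc
  have hM : 0 < 2040 * m := by positivity
  have hdM : 2040 ∣ 2040 * m := Dvd.intro _ rfl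
  have hP : Sp (2040 * m) fun d => (f15 d = true ∧ Rt17 d) ∧ d % (m : ℤ) ∈ A :=
    ((sp_f15 (Dvd.dvd.trans (by norm_num) hdM)).and
      (sp_rt (Dvd.dvd.trans (by norm_num) hdM))).and (sp_mod (Dvd.intro_left _ rfl) A)
  have h4 : 4 ∣ 2040 * m := Dvd.dvd.trans (by norm_num) hdM
  have hK : ∀ a ∈ KC (2040 * m) (fun d => (f15 d = true ∧ Rt17 d) ∧ d % (m : ℤ) ∈ A) s' k c,
      a % 4 = c ∧ f15 (s' * (k * a : ℕ)) = true ∧ Rt17 (s' * (k * a : ℕ)) := by
    intro a ha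
    have := KC_prop ha
    exact ⟨this.1, this.2.1⟩
  have hL := hJ s' k c t r s H (2040 * m) hdM hM _ hK
  have h := hg_one (s' := s') (k := k) (c := c) (M := 2040 * m)
    (f := fun d => decide ((f15 d = true ∧ Rt17 d) ∧ d % (m : ℤ) ∈ A))
    (Q := fun d => Sg15 d ∧ G17 d) (Dvd.dvd.trans (by norm_num) hdM) hM hc ec01.1 ec01.2
    (fun n hn => by
      rw [mem_KC hM h4 hP hs hk hc hn, decide_eq_true_iff]) hL
  simpa only [decide_eq_true_iff] using h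

/-- all the `d` with both root numbers `+ 1` -/
theorem hg_J (hJ : JL) : HG (fun d => f15 d = true ∧ Rt17 d) (fun d => Sg15 d ∧ G17 d)
    (eta * c2) := by
  have h := hg_cls hJ (m := 1) one_pos Set.univ
  simpa only [Set.mem_univ, and_true] using h

end Pool.Agent.N963.JT
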