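import Pool.Agent.N973.P15G.All
import Pool.Agent.N809.P17.All
import Pool.Agent.N975.JT.Uni
import Pool.Agent.N963.JT.Cls
import Pool.Agent.N969.P15.Glue

/-!
# Project JT: from the joint law of the criteria to the joint law of the twists
-/

set_option autoImplicit false
set_option linter.all false

namespace Pool.Agent.N963.JT

open Finset Filter
open Pool.Agent.N919.BS (NS NF HG Rt17)
open Pool.Agent.N916.MO (G17)
open Pool.Agent.N809.PQ (Sg15 w15)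
open Pool.Agent.N975.JT (S17)
open Pool.Agent.N916.PQ (f15 f15_w15)
open Pool.Agent.N916.GB (eta)
open Pool.Agent.Y703.CQ (c2)

/-- `2`-Selmer minimal, level 15 -/
def R15 (d : ℤ) : Prop := Pool.Agent.N875.X15.Fin2 (Pool.Agent.N875.X15.WS d)

/-- `2`-Selmer minimal, level 17 -/
def R17 (d : ℤ) : Prop := Pool.Agent.N875.X15.Fin2 (Pool.Agent.N875.P17.WS d)

theorem r17_iff {d : ℤ} (hs : Squarefree d) : R17 d ↔ S17 d := Pool.Agent.N809.P17.fin2_all hs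

theorem r15_iff (d : ℤ) (hs : Squarefree d) (h1 : d ≠ 1) (h2 : d ≠ -1) : Sg15 d ↔ R15 d := by
  unfold R15
  rw [Pool.Agent.N875.D15.fin2S_iff_sg15 hs]
  constructor
  · exact fun h => Or.inl h
  · rintro (h | h | h)
    · exact h
    · exact absurd h h1
    · exact absurd h h2

theorem w15_of {d : ℤ} (hs : Squarefree d) (h : R15 d) : w15 d = 1 := by
  rcases (Pool.Agent.N875.D15.fin2S_iff_sg15 hs).1 h with h1 | h1 | h1
  · by_cases e1 : d = 1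
    · subst e1
      norm_num [Pool.Agent.N809.PQ.w15]
    by_cases e2 : d = -1
    · subst e2
      norm_num [Pool.Agent.N809.PQ.w15]
    exact Pool.Agent.N809.PQ.sg15_parity hs e1 e2 h1
  · subst h1
    norm_num [Pool.Agent.N809.PQ.w15]
  · subst h1
    norm_num [Pool.Agent.N809.PQ.w15]

/-- the rank form, level 15 -/
theorem bsd15 {d : ℤ} (hs : Squarefree d) (h : R15 d) :
    4 * (-12987 * d ^ 2) ^ 3 + 27 * (-263466 * d ^ 3) ^ 2 ≠ 0 ∧
      Pool.Agent.Y687.RankBSD (-12987 * d ^ 2) (-263466 * d ^ 3) :=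
  ⟨Pool.Agent.N969.P15.disc_ne hs.ne_zero, Pool.Agent.N973.P15G.F.rank15 hs h⟩

/-- the rank form, level 17 -/
theorem bsd17 {d : ℤ} (hs : Squarefree d) (h : R17 d) :
    4 * (-91 * d ^ 2) ^ 3 + 27 * (-330 * d ^ 3) ^ 2 ≠ 0 ∧
      Pool.Agent.Y687.RankBSD (-91 * d ^ 2) (-330 * d ^ 3) := by
  refine ⟨?_, Pool.Agent.N809.P17.bsd_all hs h⟩
  have e : 4 * (-91 * d ^ 2) ^ 3 + 27 * (-330 * d ^ 3) ^ 2 = -73984 * d ^ 6 := by ring
  rw [e]
  exact mul_ne_zero (by norm_num) (pow_ne_zero 6 hs.ne_zero)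

section
variable {C : ℤ → Prop}

theorem cl_and (d : ℤ) (hs : Squarefree d) (h1 : d ≠ 1) (h2 : d ≠ -1) :
    ((Sg15 d ∧ S17 d) ∧ C d) ↔ ((R15 d ∧ R17 d) ∧ C d) := by
  rw [r15_iff d hs h1 h2, ← r17_iff hs]

theorem cl_or (d : ℤ) (hs : Squarefree d) (h1 : d ≠ 1) (h2 : d ≠ -1) :
    (Sg15 d ∨ S17 d) ↔ (R15 d ∨ R17 d) := by
  rw [r15_iff d hs h1 h2, ← r17_iff hs]

end

theorem NS_cl {P Q : ℤ → Prop} {T : ℕ → ℕ} {c : ℝ}
    (hPQ : ∀ d, Squarefree d → d ≠ 1 → d ≠ -1 → (P d ↔ Q d))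
    (h : Tendsto (fun X : ℕ => (NS P X : ℝ) / (T X : ℝ)) atTop (nhds c))
    (hT : Tendsto (fun X => (T X : ℝ)) atTop atTop) :
    Tendsto (fun X : ℕ => (NS Q X : ℝ) / (T X : ℝ)) atTop (nhds c) :=
  Pool.Agent.N969.Den.lim_close (B := NS Q) h
    (fun X => Pool.Agent.N969.Den.NS_close hPQ X)
    (fun X => Pool.Agent.N969.Den.NS_close (fun d a b c => (hPQ d a b c).symm) X) hT

theorem NF_cl {P Q : ℤ → Prop} {T : ℕ → ℕ} {c : ℝ}
    (hPQ : ∀ d, Squarefree d → d ≠ 1 → d ≠ -1 → (P d ↔ Q d))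
    (h : Tendsto (fun X : ℕ => (NF P X : ℝ) / (T X : ℝ)) atTop (nhds c))
    (hT : Tendsto (fun X => (T X : ℝ)) atTop atTop) :
    Tendsto (fun X : ℕ => (NF Q X : ℝ) / (T X : ℝ)) atTop (nhds c) :=
  Pool.Agent.N969.Den.lim_close (B := NF Q) h
    (fun X => Pool.Agent.N969.Den.NF_close hPQ X)
    (fun X => Pool.Agent.N969.Den.NF_close (fun d a b c => (hPQ d a b c).symm) X) hT

/-- the number of all `d` with both root numbers `+ 1` tends to infinity -/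
theorem top_of_ratio {A T : ℕ → ℕ} {ρ : ℝ} (hρ : 0 < ρ)
    (h : Tendsto (fun X : ℕ => (A X : ℝ) / (T X : ℝ)) atTop (nhds ρ))
    (hT : Tendsto (fun X => (T X : ℝ)) atTop atTop) :
    Tendsto (fun X => (A X : ℝ)) atTop atTop := by
  have h1 := Filter.Tendsto.pos_mul_atTop hρ h hT
  refine h1.congr' ?_
  filter_upwards [hT.eventually_gt_atTop 0] with X hX
  rw [div_mul_cancel₀ _ hX.ne']

/-- the limit over `X` does not change either -/
theorem close_X {A A' B : ℕ → ℕ} {c : ℝ}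
    (h : Tendsto (fun X : ℕ => ((A X : ℝ) - c * (B X : ℝ)) / (X : ℝ)) atTop (nhds 0))
    (h1 : ∀ X, A X ≤ A' X + 2) (h2 : ∀ X, A' X ≤ A X + 2) :
    Tendsto (fun X : ℕ => ((A' X : ℝ) - c * (B X : ℝ)) / (X : ℝ)) atTop (nhds 0) := by
  refine tendsto_of_tendsto_of_dist h ?_
  have h3 : Tendsto (fun X : ℕ => 2 / (X : ℝ)) atTop (nhds 0) :=
    tendsto_const_nhds.div_atTop tendsto_natCast_atTop_atTop
  refine squeeze_zero (fun X => dist_nonneg) (fun X => ?_) h3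
  rw [Real.dist_eq, ← sub_div, abs_div, abs_of_nonneg (Nat.cast_nonneg X : (0 : ℝ) ≤ _)]
  refine div_le_div_of_nonneg_right ?_ (Nat.cast_nonneg _)
  have h4 : (A X : ℝ) ≤ A' X + 2 := by exact_mod_cast h1 X
  have h5 : (A' X : ℝ) ≤ A X + 2 := by exact_mod_cast h2 X
  rw [abs_le]
  constructor <;> linarith

/-- both root numbers -/
def W (d : ℤ) : Prop := w15 d = 1 ∧ Rt17 d

theorem W_eq : (fun d => f15 d = true ∧ Rt17 d) = W :=
  funext fun d => propext (and_congr (f15_w15 d) Iff.rfl)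

/-- **the joint densities, squarefree integers** -/
theorem fin_NS (hJ : JL) :
    Tendsto (fun X : ℕ => (NS (fun d => R15 d ∧ R17 d) X : ℝ) / (NS (fun _ => True) X : ℝ)) atTop
      (nhds (433 / 1728 * (eta * c2))) ∧
    Tendsto (fun X : ℕ => (NS (fun d => R15 d ∧ R17 d) X : ℝ) / (NS W X : ℝ)) atTop
      (nhds (eta * c2)) ∧
    Tendsto (fun X : ℕ => (NS (fun d => R15 d ∨ R17 d) X : ℝ) / (NS (fun _ => True) X : ℝ)) atTop
      (nhds (eta / 2 + c2 / 2 - 433 / 1728 * (eta * c2))) := by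
  obtain ⟨h1, h2, h3⟩ := Pool.Agent.N975.JT.joint_NS (hg_J hJ)
  have hW := Pool.Agent.N975.JT.rn_NS
  rw [W_eq] at h2 hW
  have key : ∀ d, Squarefree d → d ≠ 1 → d ≠ -1 → ((Sg15 d ∧ S17 d) ↔ (R15 d ∧ R17 d)) := by
    intro d hs e1 e2
    rw [r15_iff d hs e1 e2, ← r17_iff hs]
  refine ⟨NS_cl key h1 Pool.Agent.N969.Den.NS_top,
    NS_cl key h2 (top_of_ratio (by norm_num) hW Pool.Agent.N969.Den.NS_top),
    NS_cl (fun d hs e1 e2 => cl_or d hs e1 e2) h3 Pool.Agent.N969.Den.NS_top⟩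

/-- **the joint densities, discriminants** -/
theorem fin_NF (hJ : JL) :
    Tendsto (fun X : ℕ => (NF (fun d => R15 d ∧ R17 d) X : ℝ) / (NF (fun _ => True) X : ℝ)) atTop
      (nhds (433 / 1728 * (eta * c2))) ∧
    Tendsto (fun X : ℕ => (NF (fun d => R15 d ∧ R17 d) X : ℝ) / (NF W X : ℝ)) atTop
      (nhds (eta * c2)) ∧
    Tendsto (fun X : ℕ => (NF (fun d => R15 d ∨ R17 d) X : ℝ) / (NF (fun _ => True) X : ℝ)) atTop
      (nhds (eta / 2 + c2 / 2 - 433 / 1728 * (eta * c2))) := by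
  obtain ⟨h1, h2, h3⟩ := Pool.Agent.N975.JT.joint_NF (hg_J hJ)
  have hW := Pool.Agent.N975.JT.rn_NF
  rw [W_eq] at h2 hW
  have key : ∀ d, Squarefree d → d ≠ 1 → d ≠ -1 → ((Sg15 d ∧ S17 d) ↔ (R15 d ∧ R17 d)) := by
    intro d hs e1 e2
    rw [r15_iff d hs e1 e2, ← r17_iff hs]
  refine ⟨NF_cl key h1 Pool.Agent.N969.Den.NF_top,
    NF_cl key h2 (top_of_ratio (by norm_num) hW Pool.Agent.N969.Den.NF_top),
    NF_cl (fun d hs e1 e2 => cl_or d hs e1 e2) h3 Pool.Agent.N969.Den.NF_top⟩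

/-- **every residue class** -/
theorem fin_cls (hJ : JL) {m : ℕ} (hm : 0 < m) (A : Set ℤ) :
    Tendsto (fun X : ℕ => ((NS (fun d => (R15 d ∧ R17 d) ∧ d % (m : ℤ) ∈ A) X : ℝ) -
      eta * c2 * (NS (fun d => W d ∧ d % (m : ℤ) ∈ A) X : ℝ)) / (X : ℝ)) atTop (nhds 0) ∧
    Tendsto (fun X : ℕ => ((NF (fun d => (R15 d ∧ R17 d) ∧ d % (m : ℤ) ∈ A) X : ℝ) -
      eta * c2 * (NF (fun d => W d ∧ d % (m : ℤ) ∈ A) X : ℝ)) / (X : ℝ)) atTop (nhds 0) := by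
  have hG := hg_cls hJ hm A
  have h1 := cls_NS hG
  have h2 := cls_NF hG
  have e0 : (fun d => (f15 d = true ∧ Rt17 d) ∧ d % (m : ℤ) ∈ A) =
      fun d => W d ∧ d % (m : ℤ) ∈ A :=
    funext fun d => propext (and_congr (and_congr (f15_w15 d) Iff.rfl) Iff.rfl)
  rw [e0] at h1 h2
  have key : ∀ d, Squarefree d → d ≠ 1 → d ≠ -1 →
      (((f15 d = true ∧ Rt17 d) ∧ d % (m : ℤ) ∈ A) ∧ (Sg15 d ∧ G17 d) ↔
        (R15 d ∧ R17 d) ∧ d % (m : ℤ) ∈ A) := by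
    intro d hs e1 e2
    rw [← r15_iff d hs e1 e2, r17_iff hs]
    have := Pool.Agent.N975.JT.both_iff hs
    constructor
    · rintro ⟨⟨a1, a2⟩, a3⟩
      exact ⟨this.1 ⟨a1, a3⟩, a2⟩
    · rintro ⟨a1, a2⟩
      obtain ⟨b1, b2⟩ := this.2 a1
      exact ⟨⟨b1, a2⟩, b2⟩
  exact ⟨close_X h1 (fun X => Pool.Agent.N969.Den.NS_close key X)
      (fun X => Pool.Agent.N969.Den.NS_close (fun d a b c => (key d a b c).symm) X),
    close_X h2 (fun X => Pool.Agent.N969.Den.NF_close key X)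
      (fun X => Pool.Agent.N969.Den.NF_close (fun d a b c => (key d a b c).symm) X)⟩

end Pool.Agent.N963.JT
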