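import Pool.Agent.N963.JT.Mw

/-!
# JT: the joint law with two more columns, an alternating form on the kernel
-/

set_option autoImplicit false
set_option linter.all false

open scoped Classical

namespace Pool.Agent.N963.JT

open Finset Module
open Pool.Agent.N916.GB (ps sx sx_symm mm mm_pos mm_one_le mm_ge In eta eta_sum ch ch_abs)
open Pool.Agent.N916.MO (EE fx fy Sy Nde Ix Sg)
open Pool.Agent.N916.PQ (Hy Kr Li Ty Gd2 t_LD dim_ge good_val Ps Ps_bd Ps_In Bn Bn_err In_nonneg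
  In_add_two T_bound ck ck_pos Li_card)
open Pool.Agent.Y703.CQ (c2)
open Pool.Agent.N877.JT

/-- **the joint law for the kernel of dimension two**: the system `M` with two more columns has a
kernel of dimension two on which the fixed form `S` is nondegenerate, and the random alternating form
`B` is nondegenerate: the probability is near to `4 / 3 * eta * c2` -/
def JMainE : Prop := ∀ ε : ℝ, 0 < ε → ∃ V₀ : ℕ, ∀ (R C J E0 CC CC' : Type) [Fintype R] [Fintype C]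
    [Fintype J] [LinearOrder J] [AddCommGroup E0] [Module (ZMod 2) E0] [Fintype E0] [Fintype CC]
    [Fintype CC'] (M : R ⊕ J → C ⊕ J → ZMod 2) (X : R ⊕ J → ZMod 2) (Y : C ⊕ J → ZMod 2)
    (u : J → ZMod 2) (k0 : J) (J₀ : Finset J) (n0 : ℕ)
    (B : EE E0 (Ix k0) →ₗ[ZMod 2] EE E0 (Ix k0) →ₗ[ZMod 2] ZMod 2) (ν υ : J → ZMod 2)
    (m : Ix k0 → Ix k0 → ZMod 2) (F : EE E0 (Ix k0) → CC) (G : (Ix k0 → ZMod 2) → CC')
    (Φ Ψ : Ix k0 → E0 → CC → ZMod 2) (Θ : Ix k0 → CC' → ZMod 2)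
    (S : (C ⊕ J → ZMod 2) → (C ⊕ J → ZMod 2) → ZMod 2) (d : J → ZMod 2) (n : ℕ),
    Hy M X Y u → Fintype.card C = Fintype.card R + 2 → Fintype.card C ≤ n0 →
    Fintype.card E0 ≤ 4 ^ n0 → Even (finrank (ZMod 2) E0) → Fintype.card CC ≤ 32 →
    Fintype.card CC' ≤ 4 → J₀.card ≤ 2 * n0 →
    Sf B (fun k : Ix k0 => ν k) (fun k : Ix k0 => υ k) m F G Φ Ψ Θ →
    (∀ e : E0, (∀ k : Ix k0, (k : J) ∈ J₀ → B (e, 0, 0) (fx k) = 0 ∧ B (e, 0, 0) (fy k) = 0) →
      e = 0) →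
    (∀ k l : Ix k0, m k l = M (Sum.inr (l : J)) (Sum.inr (k : J))) →
    (∀ a b c, S a (b + c) = S a b + S a c) → (∀ a b, S a b = S b a) → (∀ a, S a a = 0) →
    Ty S d n → n ≤ n0 →
    V₀ * (n0 + 1) ≤ (univ.filter fun k : J => d k = 1).card →
    V₀ * (n0 + 1) ≤ (univ.filter fun k : J => d k + u k = 1).card →
    V₀ * (n0 + 1) ≤ (univ.filter fun k : J => u k = 1).card →
    V₀ * (n0 + 1) ≤ (univ.filter fun k : J => ν k = 1).card →
    V₀ * (n0 + 1) ≤ (univ.filter fun k : J => υ k = 1).card →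
    V₀ * (n0 + 1) ≤ (univ.filter fun k : J => ν k ≠ υ k).card →
    |((univ.filter fun σ : ps J → ZMod 2 => Gd2 M k0 S (sx σ) ∧ Nde B (Sg k0 σ)).card : ℝ) /
      2 ^ (ps J).card - 4 / 3 * eta * c2| ≤ ε

theorem b_abs {P : Prop} [Decidable P] : |(if P then (1 : ℝ) else 0) - c2| ≤ 1 := by
  have h := c201
  rw [abs_le]
  split_ifs <;> constructor <;> linarith [h.1, h.2]

/-- **the joint law for the kernel of dimension two** -/
theorem jmainE : JMainE := by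
  intro ε hε
  obtain ⟨Va, hVa⟩ := t_LD (ε / 4) (by linarith)
  -- the truncation
  obtain ⟨K, hK⟩ := pow_unbounded_of_one_lt (512 / ε) (by norm_num : (1 : ℝ) < 2)
  obtain ⟨Vb, hVb⟩ := pow_unbounded_of_one_lt (ck (K + 1)) (by norm_num : (1 : ℝ) < 2)
  have hε' : 0 < ε / (4 * (K + 1)) := by positivity
  choose V hV using fun k => mom_w (k + 2) 2 (ε / (4 * (K + 1))) hε'
  obtain ⟨V1, hV1⟩ : ∃ V1, ∀ k, k < K + 1 → V k ≤ V1 :=
    ⟨(range (K + 1)).sup V, fun k hk => le_sup (f := V) (mem_range.2 hk)⟩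
  refine ⟨V1 + Va + Vb + 8, ?_⟩
  intro R C J E0 CC CC' _ _ _ _ _ _ _ _ _ M X Y u k0 J₀ n0 B ν υ m F G Φ Ψ Θ S d n hy cr cn ce hev
    cc cd jc sf nd hm hSa hSs hSo hT hn rd1 rd2 ru rν rυ rd
  have H : JW 2 M X Y u k0 J₀ n0 B ν υ m F G Φ Ψ Θ ((V1 + Va + Vb + 8) * (n0 + 1)) :=
    ⟨hy, cr, cn, ce, hev, cc, cd, jc, sf, nd, hm, ru, rν, rυ, rd⟩
  have hVV : 8 * n0 + 8 + V1 + Va + Vb ≤ (V1 + Va + Vb + 8) * (n0 + 1) := by nlinarith
  have hp : (0 : ℝ) < 2 ^ (ps J).card := by positivity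
  set D : (ps J → ZMod 2) → ℕ := fun σ => Module.finrank (ZMod 2) (Kr M k0 (sx σ)) with hD
  have hD2 : ∀ σ, 2 ≤ D σ := fun σ => dim_ge hy k0 cr (fun l m => sx_symm σ l m)
  set b : (ps J → ZMod 2) → ℝ := fun σ => (if Nde B (Sg k0 σ) then (1 : ℝ) else 0) - c2 with hb
  have hb1 : ∀ σ, |b σ| ≤ 1 := fun σ => b_abs
  -- the unconditional law
  have hLD := hVa R C J M X Y u S d n hy cr hSa hSs hSo hT (by omega) (by omega) (by omega) k0
  -- the weights
  have hone : ∀ k, k < K + 1 → |∑ σ : ps J → ZMod 2, b σ *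
      (In (k + 2) (D σ) - ∑ z ∈ Li (k + 2) (Kr M k0 (sx σ)), ch (S (z 0) (z 1)))| ≤
      ε / (2 * (K + 1)) * 2 ^ (ps J).card := by
    intro k hk
    have h := hV k R C J E0 CC CC' M X Y u k0 J₀ n0 B ν υ m F G Φ Ψ Θ _ H
      (by have := hV1 k hk; omega) (fun z => (1 - ch (S (z 0) (z 1))) / 2) (fun z => by
        have h1 := ch_abs (S (z 0) (z 1))
        have h2 := abs_le.1 h1.le
        rw [abs_le]
        constructor <;> linarith [h2.1, h2.2])
    have e : ∀ σ : ps J → ZMod 2, b σ *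
        (In (k + 2) (D σ) - ∑ z ∈ Li (k + 2) (Kr M k0 (sx σ)), ch (S (z 0) (z 1))) =
        2 * (((if Nde B (Sg k0 σ) then (1 : ℝ) else 0) - c2) *
          ∑ z ∈ Li (k + 2) (Kr M k0 (sx σ)), (1 - ch (S (z 0) (z 1))) / 2) := by
      intro σ
      have h1 : ∑ z ∈ Li (k + 2) (Kr M k0 (sx σ)), (1 - ch (S (z 0) (z 1))) / 2 =
          (In (k + 2) (D σ) - ∑ z ∈ Li (k + 2) (Kr M k0 (sx σ)), ch (S (z 0) (z 1))) / 2 := by
        rw [← sum_div, sum_sub_distrib, sum_const, nsmul_eq_mul, mul_one, Li_card]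
      rw [h1]
      ring
    rw [sum_congr rfl fun σ _ => e σ, ← mul_sum, abs_mul, abs_of_pos (by norm_num : (0 : ℝ) < 2)]
    calc 2 * _ ≤ 2 * (ε / (4 * (K + 1)) * 2 ^ (ps J).card) := mul_le_mul_of_nonneg_left h (by norm_num)
      _ = ε / (2 * (K + 1)) * 2 ^ (ps J).card := by
        have : (0 : ℝ) < K + 1 := by positivity
        field_simp
        ring
  -- the good systems
  have hPs : ∀ σ : ps J → ZMod 2, (if Gd2 M k0 S (sx σ) then (12 : ℝ) else 0) =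
      Ps M k0 S σ * (if D σ - 2 = 0 then 1 else 0) := by
    intro σ
    have h4 := good_val (W := Kr M k0 (sx σ)) hSa hSs hSo
    have h5 : (D σ - 2 = 0 ∧ 2 ≤ D σ) ↔ D σ - 2 = 0 := ⟨fun h => h.1, fun h => ⟨h, hD2 σ⟩⟩
    have h6 : Ps M k0 S σ * (if D σ - 2 = 0 then (1 : ℝ) else 0) =
        Ps M k0 S σ * (if D σ - 2 = 0 ∧ 2 ≤ D σ then 1 else 0) := by
      by_cases h : D σ - 2 = 0
      · rw [if_pos h, if_pos (h5.2 h)]
      · rw [if_neg h, if_neg fun h' => h (h5.1 h')]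
    rw [h6]
    unfold Ps
    rw [← h4]
    unfold Gd2
    by_cases h : Module.finrank (ZMod 2) (Kr M k0 (sx σ)) = 2 ∧
        ∀ a ∈ Kr M k0 (sx σ), (∀ b ∈ Kr M k0 (sx σ), S a b = 0) → a = 0
    · rw [if_pos h, if_pos h]
    · rw [if_neg h, if_neg h]
  -- the truncated sum
  have hB : |∑ σ : ps J → ZMod 2, b σ * (Ps M k0 S σ * Bn K (D σ - 2))| ≤
      ε / 2 * 2 ^ (ps J).card := by
    have e1 : ∑ σ : ps J → ZMod 2, b σ * (Ps M k0 S σ * Bn K (D σ - 2)) =
        ∑ k ∈ range (K + 1), ((-1) ^ k / (4 ^ k * mm k)) * ∑ σ : ps J → ZMod 2, b σ *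
          (In (k + 2) (D σ) - ∑ z ∈ Li (k + 2) (Kr M k0 (sx σ)), ch (S (z 0) (z 1))) := by
      unfold Bn
      simp only [mul_sum]
      rw [sum_comm]
      refine sum_congr rfl fun k _ => sum_congr rfl fun σ _ => ?_
      have h5 := Ps_In M k0 S σ k (hD2 σ)
      have hm := (mm_pos k).ne'
      have h4k : (4 : ℝ) ^ k ≠ 0 := by positivity
      calc b σ * (Ps M k0 S σ * ((-1) ^ k * In k (D σ - 2) / mm k)) =
          b σ * (Ps M k0 S σ * In k (D σ - 2)) * ((-1) ^ k / mm k) := by ring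
        _ = _ := by
          rw [h5]
          field_simp
          rfl
    rw [e1]
    refine (abs_sum_le_sum_abs _ _).trans ?_
    have h4 : ∀ k ∈ range (K + 1), |((-1) ^ k / (4 ^ k * mm k)) * ∑ σ : ps J → ZMod 2, b σ *
        (In (k + 2) (D σ) - ∑ z ∈ Li (k + 2) (Kr M k0 (sx σ)), ch (S (z 0) (z 1)))| ≤
        ε / (2 * (K + 1)) * 2 ^ (ps J).card := by
      intro k hk
      have hm := mm_pos k
      have h4k : (1 : ℝ) ≤ 4 ^ k := one_le_pow₀ (by norm_num)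
      have hm1 := mm_one_le k
      rw [abs_mul, abs_div, abs_pow, abs_neg, abs_one, one_pow, abs_of_pos (by positivity)]
      have h5 : 1 / (4 ^ k * mm k) ≤ 1 := by
        rw [div_le_one (by positivity)]
        nlinarith
      calc 1 / (4 ^ k * mm k) * _ ≤ 1 * _ := mul_le_mul_of_nonneg_right h5 (abs_nonneg _)
        _ ≤ _ := by
          rw [one_mul]
          exact hone k (mem_range.1 hk)
    refine (sum_le_sum h4).trans (le_of_eq ?_)
    rw [sum_const, card_range, nsmul_eq_mul]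
    have : (0 : ℝ) < K + 1 := by positivity
    push_cast
    field_simp
  -- the error of the truncation
  have hE : |∑ σ : ps J → ZMod 2, b σ * (Ps M k0 S σ * ((if D σ - 2 = 0 then (1 : ℝ) else 0) -
      Bn K (D σ - 2)))| ≤ ε * 2 ^ (ps J).card := by
    have hm := mm_pos K
    have h4K : (0 : ℝ) < 4 ^ (K + 1) := by positivity
    have e2 : ∀ σ : ps J → ZMod 2, |b σ * (Ps M k0 S σ *
        ((if D σ - 2 = 0 then (1 : ℝ) else 0) - Bn K (D σ - 2)))| ≤
        In (K + 3) (D σ) * (2 / (4 ^ (K + 1) * mm K)) := by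
      intro σ
      obtain ⟨b1, b2⟩ := Ps_bd M k0 S σ
      rw [abs_mul]
      refine (mul_le_mul_of_nonneg_right (hb1 σ) (abs_nonneg _)).trans ?_
      rw [one_mul, abs_mul, abs_of_nonneg b1, abs_sub_comm]
      have h6 := Bn_err K (D σ - 2)
      have h7 : (2 * In 2 (D σ)) * (In (K + 1) (D σ - 2) / mm K) =
          In (K + 3) (D σ) * (2 / (4 ^ (K + 1) * mm K)) := by
        obtain ⟨e, he⟩ : ∃ e, D σ = e + 2 := ⟨D σ - 2, by have := hD2 σ; omega⟩
        have h8 := In_add_two (K + 1) e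
        rw [he, Nat.add_sub_cancel, show K + 3 = K + 1 + 2 by rfl, h8]
        field_simp
      rw [← h7]
      exact mul_le_mul b2 h6 (abs_nonneg _) (by
        have := In_nonneg 2 (D σ)
        linarith)
    refine (abs_sum_le_sum_abs _ _).trans ((sum_le_sum fun σ _ => e2 σ).trans ?_)
    rw [← sum_mul]
    have h := T_bound hy k0 (K + 3) Vb 2 cr (by omega)
    set A : ℝ := (∑ σ : ps J → ZMod 2, In (K + 3) (Module.finrank (ZMod 2) (Kr M k0 (sx σ)))) /
      2 ^ (ps J).card with hA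
    have e : ((2 : ℝ) ^ 2) ^ (K + 3) = 16 * 4 ^ (K + 1) := by
      rw [show K + 3 = K + 1 + 2 by rfl, pow_add]
      norm_num
      ring
    rw [e] at h
    have hck : (2 : ℝ) ^ ((K + 3) ^ 2 + (K + 3) + 4) ≤ 2 ^ Vb := hVb.le
    have hA1 : A ≤ 32 * 4 ^ (K + 1) := by
      have h1 : |A - 16 * 4 ^ (K + 1)| * 2 ^ Vb ≤ (16 * 4 ^ (K + 1)) * 2 ^ Vb :=
        h.trans (mul_le_mul_of_nonneg_left hck (by positivity))
      have h2 := le_of_mul_le_mul_right h1 (by positivity)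
      linarith [(abs_le.1 h2).2]
    have hAe : (∑ σ : ps J → ZMod 2, In (K + 3) (D σ)) = A * 2 ^ (ps J).card := by
      rw [hA, div_mul_cancel₀ _ hp.ne']
    rw [hAe]
    have h4 : (2 : ℝ) ^ K ≤ 2 * mm K := mm_ge K
    have h6 : 512 / ε ≤ 2 * mm K := by linarith
    rw [div_le_iff₀ hε] at h6
    have h7 : A * (2 / (4 ^ (K + 1) * mm K)) ≤ ε := by
      calc A * (2 / (4 ^ (K + 1) * mm K)) ≤ 32 * 4 ^ (K + 1) * (2 / (4 ^ (K + 1) * mm K)) :=
            mul_le_mul_of_nonneg_right hA1 (by positivity)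
        _ = 64 / mm K := by field_simp; ring
        _ ≤ ε := by
          rw [div_le_iff₀ hm]
          nlinarith
    calc A * 2 ^ (ps J).card * (2 / (4 ^ (K + 1) * mm K)) =
          A * (2 / (4 ^ (K + 1) * mm K)) * 2 ^ (ps J).card := by ring
      _ ≤ _ := mul_le_mul_of_nonneg_right h7 hp.le
  -- the difference
  have hN : ((univ.filter fun σ : ps J → ZMod 2 => Gd2 M k0 S (sx σ) ∧ Nde B (Sg k0 σ)).card : ℝ) =
      ∑ σ : ps J → ZMod 2, if (Gd2 M k0 S (sx σ) ∧ Nde B (Sg k0 σ)) then (1 : ℝ) else 0 :=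
    Finset.natCast_card_filter _ _
  have hM : ((univ.filter fun σ : ps J → ZMod 2 => Gd2 M k0 S (sx σ)).card : ℝ) =
      ∑ σ : ps J → ZMod 2, if Gd2 M k0 S (sx σ) then (1 : ℝ) else 0 :=
    Finset.natCast_card_filter _ _
  set P : ℝ := ((univ.filter fun σ : ps J → ZMod 2 => Gd2 M k0 S (sx σ) ∧
    Nde B (Sg k0 σ)).card : ℝ) with hP
  set Q : ℝ := ((univ.filter fun σ : ps J → ZMod 2 => Gd2 M k0 S (sx σ)).card : ℝ) with hQ
  have hdiff : 12 * (P - c2 * Q) = ∑ σ : ps J → ZMod 2, b σ * (Ps M k0 S σ * Bn K (D σ - 2)) +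
      ∑ σ : ps J → ZMod 2, b σ * (Ps M k0 S σ * ((if D σ - 2 = 0 then (1 : ℝ) else 0) -
        Bn K (D σ - 2))) := by
    rw [hN, hM, mul_sum, ← sum_sub_distrib, mul_sum, ← sum_add_distrib]
    refine sum_congr rfl fun σ _ => ?_
    have h1 : b σ * (Ps M k0 S σ * Bn K (D σ - 2)) + b σ * (Ps M k0 S σ *
        ((if D σ - 2 = 0 then (1 : ℝ) else 0) - Bn K (D σ - 2))) =
        b σ * (Ps M k0 S σ * (if D σ - 2 = 0 then (1 : ℝ) else 0)) := by ring
    rw [h1, ← hPs σ]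
    rw [hb]
    simp only
    by_cases h : Gd2 M k0 S (sx σ)
    · by_cases h' : Nde B (Sg k0 σ)
      · rw [if_pos ⟨h, h'⟩, if_pos h, if_pos h', if_pos h]
        ring
      · rw [if_neg fun h'' => h' h''.2, if_pos h, if_neg h', if_pos h]
        ring
    · rw [if_neg fun h'' => h h''.1, if_neg h, if_neg h]
      ring
  have h12 : |12 * (P - c2 * Q)| ≤ ε / 2 * 2 ^ (ps J).card + ε * 2 ^ (ps J).card := by
    rw [hdiff]
    exact (abs_add_le _ _).trans (add_le_add hB hE)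
  have h13 : |P / 2 ^ (ps J).card - c2 * (Q / 2 ^ (ps J).card)| ≤ ε / 8 := by
    have e : P / 2 ^ (ps J).card - c2 * (Q / 2 ^ (ps J).card) = (P - c2 * Q) / 2 ^ (ps J).card := by
      field_simp
    rw [e, abs_div, abs_of_pos hp, div_le_iff₀ hp]
    rw [abs_mul, abs_of_pos (by norm_num : (0 : ℝ) < 12)] at h12
    linarith
  have h14 : |c2 * (Q / 2 ^ (ps J).card) - 4 / 3 * eta * c2| ≤ ε / 4 := by
    have e : c2 * (Q / 2 ^ (ps J).card) - 4 / 3 * eta * c2 =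
        c2 * (Q / 2 ^ (ps J).card - 4 / 3 * eta) := by ring
    rw [e, abs_mul, abs_of_nonneg c201.1]
    calc c2 * |Q / 2 ^ (ps J).card - 4 / 3 * eta| ≤ 1 * (ε / 4) :=
          mul_le_mul c201.2 hLD (abs_nonneg _) (by norm_num)
      _ = ε / 4 := one_mul _
  have h15 := abs_le.1 h13
  have h16 := abs_le.1 h14
  rw [abs_le]
  constructor
  · linarith [h15.1, h16.1]
  · linarith [h15.2, h16.2]

end Pool.Agent.N963.JT
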