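import Pool.Agent.N877.JT.Mom
import Pool.Agent.N916.PQ.LB5

/-!
# JT: weighted decoupling of the kernel and the form, systems with more columns than rows
(transposed link between the system and the form)
-/

set_option autoImplicit false
set_option linter.all false

open scoped Classical

namespace Pool.Agent.N963.JT

open Finset Module
open Pool.Agent.N916.GB (ps sx eta Pc In bad_card ch)
open Pool.Agent.N916.MO (EE fx fy Sy Nde Ix Sg Lm few)
open Pool.Agent.N916.PQ (Hy Gc Zs Kr yy ee ev mem_Zs Zs_coe_sum GG GG_li li_GG card_Zs T_bound Li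
  sum_Li)
open Pool.Agent.Y703.CQ (c2)
open Pool.Agent.N877.JT

section
variable {R C J E0 CC CC' : Type} [Fintype R] [Fintype C] [Fintype J] [LinearOrder J]
  [AddCommGroup E0] [Module (ZMod 2) E0] [Fintype E0] [Fintype CC] [Fintype CC']

/-- the hypotheses: `D` more columns than rows, transposed link -/
structure JW (D : ℕ) (M : R ⊕ J → C ⊕ J → ZMod 2) (X : R ⊕ J → ZMod 2) (Y : C ⊕ J → ZMod 2)
    (u : J → ZMod 2) (k0 : J) (J₀ : Finset J) (n0 : ℕ)
    (B : EE E0 (Ix k0) →ₗ[ZMod 2] EE E0 (Ix k0) →ₗ[ZMod 2] ZMod 2) (ν υ : J → ZMod 2)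
    (m : Ix k0 → Ix k0 → ZMod 2) (F : EE E0 (Ix k0) → CC) (G : (Ix k0 → ZMod 2) → CC')
    (Φ Ψ : Ix k0 → E0 → CC → ZMod 2) (Θ : Ix k0 → CC' → ZMod 2) (V : ℕ) : Prop where
  hy : Hy M X Y u
  cr : Fintype.card C = Fintype.card R + D
  cn : Fintype.card C ≤ n0
  ce : Fintype.card E0 ≤ 4 ^ n0
  ev : Even (finrank (ZMod 2) E0)
  cc : Fintype.card CC ≤ 32
  cd : Fintype.card CC' ≤ 4
  jc : J₀.card ≤ 2 * n0
  sf : Sf B (fun k : Ix k0 => ν k) (fun k : Ix k0 => υ k) m F G Φ Ψ Θ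
  nd : ∀ e : E0, (∀ k : Ix k0, (k : J) ∈ J₀ → B (e, 0, 0) (fx k) = 0 ∧ B (e, 0, 0) (fy k) = 0) →
      e = 0
  hm : ∀ k l : Ix k0, m k l = M (Sum.inr (l : J)) (Sum.inr (k : J))
  ru : V ≤ (univ.filter fun k : J => u k = 1).card
  rν : V ≤ (univ.filter fun k : J => ν k = 1).card
  rυ : V ≤ (univ.filter fun k : J => υ k = 1).card
  rd : V ≤ (univ.filter fun k : J => ν k ≠ υ k).card

variable {M : R ⊕ J → C ⊕ J → ZMod 2} {X : R ⊕ J → ZMod 2} {Y : C ⊕ J → ZMod 2} {u : J → ZMod 2}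
  {k0 : J} {J₀ : Finset J} {n0 D : ℕ}
  {B : EE E0 (Ix k0) →ₗ[ZMod 2] EE E0 (Ix k0) →ₗ[ZMod 2] ZMod 2} {ν υ : J → ZMod 2}
  {m : Ix k0 → Ix k0 → ZMod 2} {F : EE E0 (Ix k0) → CC} {G : (Ix k0 → ZMod 2) → CC'}
  {Φ Ψ : Ix k0 → E0 → CC → ZMod 2} {Θ : Ix k0 → CC' → ZMod 2} {V k : ℕ}

theorem bds_card' (H : JW D M X Y u k0 J₀ n0 B ν υ m F G Φ Ψ Θ V) {S0 : Finset (Ix k0)} {w : ℕ}
    (hS : S0.card = n0 + w) (hV : 6 * n0 + 2 * w + 6 ≤ V) :
    (Bds M k0 S0 υ ν Ψ Φ).card * 2 ^ w ≤ 3 * 2 ^ Fintype.card (Ix k0) := by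
  have hC : Fintype.card C ≤ n0 := H.cn
  have h2C : 2 ^ Fintype.card C ≤ 2 ^ n0 := Nat.pow_le_pow_right (by norm_num) hC
  have hE : Fintype.card E0 * Fintype.card CC ≤ 2 ^ (2 * n0 + 5) := by
    calc Fintype.card E0 * Fintype.card CC ≤ 4 ^ n0 * 32 := Nat.mul_le_mul H.ce H.cc
      _ = 2 ^ (2 * n0 + 5) := by rw [pow_add, pow_mul]; norm_num
  have hne : Nonempty CC := ⟨F 0⟩
  have out : ∀ (Q : Ix k0 → Prop) [DecidablePred Q], (univ.filter Q).card ≤
      (univ.filter fun i : Ix k0 => i ∉ S0 ∧ Q i).card + S0.card := by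
    intro Q _
    have h1 : univ.filter Q ⊆ (univ.filter fun i : Ix k0 => i ∉ S0 ∧ Q i) ∪ S0 := by
      intro i hi
      rw [mem_union, mem_filter]
      by_cases h : i ∈ S0
      · exact Or.inr h
      · exact Or.inl ⟨mem_univ _, h, (mem_filter.1 hi).2⟩
    exact (card_le_card h1).trans (card_union_le _ _)
  have r1 := (H.rν.trans (rich1 (k0 := k0) fun k => ν k = 1))
  have r2 := (H.rυ.trans (rich1 (k0 := k0) fun k => υ k = 1))
  have o1 := out fun i : Ix k0 => ν i = 1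
  have o2 := out fun i : Ix k0 => υ i = 1
  have h0 : (Bd0 M k0 S0).card * 2 ^ w ≤ 2 ^ Fintype.card (Ix k0) :=
    cnt_aux (Bd0_card S0) h2C (by omega)
  have h1 : (Bd1 M k0 S0 υ Ψ).card * 2 ^ w ≤ 2 ^ Fintype.card (Ix k0) := by
    refine cnt_aux (c := 4 * n0 + 5) (Bd1_card hne S0 υ Ψ) ?_ (by omega)
    calc 2 ^ Fintype.card C * (Fintype.card E0 * Fintype.card CC) * 2 ^ Fintype.card C ≤
          2 ^ n0 * 2 ^ (2 * n0 + 5) * 2 ^ n0 := Nat.mul_le_mul (Nat.mul_le_mul h2C hE) h2C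
      _ = 2 ^ (4 * n0 + 5) := by rw [← pow_add, ← pow_add]; congr 1; omega
  have h2 : (Bd2 M k0 S0 ν Φ).card * 2 ^ w ≤ 2 ^ Fintype.card (Ix k0) := by
    refine cnt_aux (c := 4 * n0 + 5) (Bd2_card hne S0 ν Φ) ?_ (by omega)
    calc Fintype.card E0 * Fintype.card CC * 2 ^ Fintype.card C ≤
          2 ^ (2 * n0 + 5) * 2 ^ n0 := Nat.mul_le_mul hE h2C
      _ = 2 ^ (3 * n0 + 5) := by rw [← pow_add]; congr 1; omega
      _ ≤ 2 ^ (4 * n0 + 5) := Nat.pow_le_pow_right (by norm_num) (by omega)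
  have h3 : (Bds M k0 S0 υ ν Ψ Φ).card ≤ (Bd0 M k0 S0).card + ((Bd1 M k0 S0 υ Ψ).card +
      (Bd2 M k0 S0 ν Φ).card) := by
    unfold Bds
    refine (card_union_le _ _).trans ?_
    have := card_union_le (Bd1 M k0 S0 υ Ψ) (Bd2 M k0 S0 ν Φ)
    omega
  calc (Bds M k0 S0 υ ν Ψ Φ).card * 2 ^ w ≤ ((Bd0 M k0 S0).card + ((Bd1 M k0 S0 υ Ψ).card +
        (Bd2 M k0 S0 ν Φ).card)) * 2 ^ w := Nat.mul_le_mul_right _ h3
    _ = (Bd0 M k0 S0).card * 2 ^ w + ((Bd1 M k0 S0 υ Ψ).card * 2 ^ w +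
        (Bd2 M k0 S0 ν Φ).card * 2 ^ w) := by ring
    _ ≤ 3 * 2 ^ Fintype.card (Ix k0) := by omega

/-- the generic indices for the pivots -/
theorem S0_ex' (H : JW D M X Y u k0 J₀ n0 B ν υ m F G Φ Ψ Θ V) {w : ℕ}
    (hV : 6 * n0 + 2 * w + 6 ≤ V) :
    ∃ S0 : Finset (Ix k0), S0.card = n0 + w ∧ ∀ p ∈ S0, (p : J) ∉ J₀ := by
  have r1 := (H.rν.trans (rich1 (k0 := k0) fun k => ν k = 1))
  have h1 : (univ.filter fun i : Ix k0 => ν i = 1).card ≤ Fintype.card (Ix k0) := card_le_univ _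
  have h2 : Fintype.card (Ix k0) ≤ (univ.filter fun i : Ix k0 => (i : J) ∉ J₀).card + J₀.card := by
    have h3 : (univ : Finset (Ix k0)) ⊆ (univ.filter fun i : Ix k0 => (i : J) ∉ J₀) ∪
        (univ.filter fun i : Ix k0 => (i : J) ∈ J₀) := by
      intro i _
      rw [mem_union, mem_filter, mem_filter]
      by_cases h : (i : J) ∈ J₀
      · exact Or.inr ⟨mem_univ _, h⟩
      · exact Or.inl ⟨mem_univ _, h⟩
    have h4 : (univ.filter fun i : Ix k0 => (i : J) ∈ J₀).card ≤ J₀.card := by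
      refine card_le_card_of_injOn Subtype.val (fun i hi => ?_) Subtype.val_injective.injOn
      rw [mem_coe, mem_filter] at hi
      exact hi.2
    have h5 := (card_le_card h3).trans (card_union_le _ _)
    rw [card_univ] at h5
    omega
  have h6 := H.jc
  obtain ⟨S0, hS, hc⟩ := exists_subset_card_eq (s := univ.filter fun i : Ix k0 => (i : J) ∉ J₀)
    (n := n0 + w) (by omega)
  exact ⟨S0, hc, fun p hp => (mem_filter.1 (hS hp)).2⟩

/-- **the families without bad combinations are generic** -/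
theorem gen_fam' {B : EE E0 (Ix k0) →ₗ[ZMod 2] EE E0 (Ix k0) →ₗ[ZMod 2] ZMod 2} {ν υ : J → ZMod 2}
    {m : Ix k0 → Ix k0 → ZMod 2} {F : EE E0 (Ix k0) → CC} {G : (Ix k0 → ZMod 2) → CC'}
    {Φ Ψ : Ix k0 → E0 → CC → ZMod 2} {Θ : Ix k0 → CC' → ZMod 2} {J₀ : Finset J}
    (hS : Sf B (fun k : Ix k0 => ν k) (fun k : Ix k0 => υ k) m F G Φ Ψ Θ)
    (hnd : ∀ e : E0, (∀ k : Ix k0, (k : J) ∈ J₀ → B (e, 0, 0) (fx k) = 0 ∧ B (e, 0, 0) (fy k) = 0) →
      e = 0)
    (hm : ∀ k l : Ix k0, m k l = M (Sum.inr (l : J)) (Sum.inr (k : J)))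
    {S0 : Finset (Ix k0)} (hS0 : ∀ p ∈ S0, (p : J) ∉ J₀) (z : Fin k → Zs M k0)
    (hz : ∀ c : Fin k → ZMod 2, (∃ i, c i ≠ 0) →
      (∑ i, c i • z i : Zs M k0) ∉ Bd0 M k0 S0 ∪ (Bd1 M k0 S0 υ Ψ ∪ Bd2 M k0 S0 ν Φ)) :
    ∃ P : Finset (Ix k0), Piv P (yI z) ∧
      Gn P (yI z) (eI z) (fun k : Ix k0 => ν k) (fun k : Ix k0 => υ k) m F Φ Ψ := by
  have hne : ∀ a : Fin k → ZMod 2, a ≠ 0 → ∃ i, a i ≠ 0 := by
    intro a ha
    by_contra hc
    push Not at hc
    exact ha (funext hc)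
  obtain ⟨P, hPS, hP⟩ := piv_few (yI z) S0 (fun a ha => by
    by_contra hc
    refine hz a (hne a hc) (mem_union_left _ ?_)
    unfold Bd0
    rw [mem_filter]
    refine ⟨mem_univ _, fun p hp => ?_⟩
    rw [← dt_yI]
    exact ha p hp)
  refine ⟨P, hP, ?_⟩
  rintro ⟨e0, a, b⟩ he
  have hout : ∀ i : Ix k0, i ∉ S0 → i ∉ P := fun i hi h => hi (hPS h)
  -- the second coordinate
  have hb : b = 0 := by
    by_contra hc
    refine hz b (hne b hc) (mem_union_right _ (mem_union_left _ ?_))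
    unfold Bd1
    rw [mem_filter]
    refine ⟨mem_univ _, (fun c => ((∑ j, a j • z j : Zs M k0) : C ⊕ J → ZMod 2) (Sum.inl c), e0,
      F (e0, dt (yI z) a, dt (yI z) b)), fun i hi => ?_⟩
    have h1 := (he i (hout i hi)).2
    unfold nPsi at h1
    simp only at h1 ⊢
    have h2 : ∑ j, a j * (∑ l, m l i * yI z j l + eI z j i) =
        ∑ c, M (Sum.inr (i : J)) (Sum.inl c) *
          ((∑ j, a j • z j : Zs M k0) : C ⊕ J → ZMod 2) (Sum.inl c) := by
      have h3 : ∀ j, a j * (∑ l, m l i * yI z j l + eI z j i) =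
          a j * ∑ c, M (Sum.inr (i : J)) (Sum.inl c) * (z j : C ⊕ J → ZMod 2) (Sum.inl c) := by
        intro j
        rw [← ee_row z j i]
        simp only [hm]
      rw [sum_congr rfl fun j _ => h3 j]
      simp only [Zs_coe_sum, mul_sum]
      rw [sum_comm]
      refine sum_congr rfl fun c _ => sum_congr rfl fun j _ => ?_
      ring
    rw [h2, add_assoc, dt_yI] at h1
    exact e01 h1
  subst hb
  -- the first coordinate
  have ha : a = 0 := by
    by_contra hc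
    refine hz a (hne a hc) (mem_union_right _ (mem_union_right _ ?_))
    unfold Bd2
    rw [mem_filter]
    refine ⟨mem_univ _, (e0, F (e0, dt (yI z) a, dt (yI z) 0)), fun i hi => ?_⟩
    have h1 := (he i (hout i hi)).1
    unfold nPhi at h1
    simp only at h1 ⊢
    have h2 : ∑ j, (0 : Fin k → ZMod 2) j * (∑ l, m i l * yI z j l + eI z j i) = 0 :=
      sum_eq_zero fun j _ => zero_mul _
    rw [h2, add_zero, dt_yI] at h1
    exact e01 h1
  subst ha
  -- the fixed part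
  have he0 : e0 = 0 := by
    refine hnd e0 fun i hi => ?_
    have hiP : i ∉ P := fun h => hS0 i (hPS h) hi
    obtain ⟨h1, h2⟩ := he i hiP
    unfold nPhi at h1
    unfold nPsi at h2
    simp only [dt_zero', Pi.zero_apply, zero_mul, mul_zero, sum_const_zero, zero_add] at h1 h2
    constructor
    · rw [hS.hx]
      simp only [Pi.zero_apply, mul_zero, sum_const_zero, zero_add]
      exact h1
    · rw [hS.hy]
      simp only [Pi.zero_apply, mul_zero, sum_const_zero, zero_add]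
      exact h2
  subst he0
  rfl

/-- the size of the space of the solutions of the first rows -/
theorem card_Zs'' (H : Hy M X Y u) (hRC : Fintype.card C = Fintype.card R + D) :
    (Fintype.card (Zs M k0) : ℝ) = 2 ^ (Fintype.card (Ix k0) + D) := by
  have h1 := card_Zs H k0
  have h2 : Fintype.card J = Fintype.card (Ix k0) + 1 := by
    have h := Fintype.card_subtype_compl (fun i : J => i = k0)
    have h3 : Fintype.card (Ix k0) = Fintype.card J - Fintype.card {i : J // i = k0} := h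
    rw [Fintype.card_subtype_eq] at h3
    have h4 : 0 < Fintype.card J := Fintype.card_pos_iff.2 ⟨k0⟩
    omega
  rw [hRC, h2] at h1
  have h3 : (0 : ℝ) < 2 ^ (Fintype.card R + 1) := by positivity
  refine mul_right_cancel₀ h3.ne' ?_
  rw [h1, ← pow_add]
  congr 1
  omega

/-- the weighted sums over the families of the kernel -/
theorem W_sum (H : Hy M X Y u) (φ : (Fin k → C ⊕ J → ZMod 2) → ℝ) (b : (ps J → ZMod 2) → ℝ) :
    (∑ σ : ps J → ZMod 2, b σ * ∑ z ∈ Li k (Kr M k0 (sx σ)), φ z) =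
      ∑ z ∈ GG M k0 k, φ (fun i => (z i : C ⊕ J → ZMod 2)) *
        ∑ σ : ps J → ZMod 2, if Pc (yy z) (ee z) σ then b σ else 0 := by
  have h0 : ∀ σ : ps J → ZMod 2, b σ * ∑ z ∈ Li k (Kr M k0 (sx σ)), φ z =
      ∑ z : Fin k → Zs M k0, if LinearIndependent (ZMod 2) z ∧ Pc (yy z) (ee z) σ then
        b σ * φ (fun i => (z i : C ⊕ J → ZMod 2)) else 0 := by
    intro σ
    rw [sum_Li M k0 k σ φ, mul_sum]
    exact sum_congr rfl fun z _ => by rw [mul_ite, mul_zero]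
  rw [sum_congr rfl fun σ _ => h0 σ, sum_comm]
  unfold GG
  rw [sum_filter]
  refine sum_congr rfl fun z _ => ?_
  by_cases hz : z ∈ GG M k0 k
  · have hz' := hz
    unfold GG at hz'
    rw [mem_filter] at hz'
    rw [if_pos hz'.2, mul_sum]
    refine sum_congr rfl fun σ _ => ?_
    have := GG_li hz
    by_cases hσ : Pc (yy z) (ee z) σ
    · rw [if_pos ⟨this, hσ⟩, if_pos hσ, mul_comm]
    · rw [if_neg fun h => hσ h.2, if_neg hσ, mul_zero]
  · have hz' := hz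
    unfold GG at hz'
    rw [mem_filter] at hz'
    rw [if_neg fun h => hz' ⟨mem_univ _, h⟩]
    refine sum_eq_zero fun σ _ => ?_
    rw [if_neg]
    rintro ⟨h1, h2⟩
    exact hz (li_GG H h1 h2)

end

/-- **the weighted decoupling** -/
theorem mom_w (k D : ℕ) (ε : ℝ) (hε : 0 < ε) : ∃ V₀ : ℕ, ∀ (R C J E0 CC CC' : Type) [Fintype R]
    [Fintype C] [Fintype J] [LinearOrder J] [AddCommGroup E0] [Module (ZMod 2) E0] [Fintype E0]
    [Fintype CC] [Fintype CC'] (M : R ⊕ J → C ⊕ J → ZMod 2) (X : R ⊕ J → ZMod 2)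
    (Y : C ⊕ J → ZMod 2) (u : J → ZMod 2) (k0 : J) (J₀ : Finset J) (n0 : ℕ)
    (B : EE E0 (Ix k0) →ₗ[ZMod 2] EE E0 (Ix k0) →ₗ[ZMod 2] ZMod 2) (ν υ : J → ZMod 2)
    (m : Ix k0 → Ix k0 → ZMod 2) (F : EE E0 (Ix k0) → CC) (G : (Ix k0 → ZMod 2) → CC')
    (Φ Ψ : Ix k0 → E0 → CC → ZMod 2) (Θ : Ix k0 → CC' → ZMod 2) (V : ℕ),
    JW D M X Y u k0 J₀ n0 B ν υ m F G Φ Ψ Θ V → 6 * n0 + V₀ ≤ V →
    ∀ φ : (Fin k → C ⊕ J → ZMod 2) → ℝ, (∀ z, |φ z| ≤ 1) →
    |∑ σ : ps J → ZMod 2, ((if Nde B (Sg k0 σ) then (1 : ℝ) else 0) - c2) *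
      ∑ z ∈ Li k (Kr M k0 (sx σ)), φ z| ≤ ε * 2 ^ (ps J).card := by
  have hDk : (0 : ℝ) < (2 ^ D) ^ k := by positivity
  set ε₁ : ℝ := ε / (4 * (2 ^ D) ^ k) with hε₁d
  have hε₁ : 0 < ε₁ := by positivity
  obtain ⟨T0, δ, hδ, hcond⟩ := cond ε₁ hε₁
  obtain ⟨v, hv⟩ := pow_unbounded_of_one_lt (1 / δ) (by norm_num : (1 : ℝ) < 2)
  obtain ⟨w, hw⟩ := pow_unbounded_of_one_lt (3 * 2 ^ k * (2 ^ D) ^ k * 2 ^ (k * k) / (ε / 4))
    (by norm_num : (1 : ℝ) < 2)
  obtain ⟨V1, hV1⟩ := pow_unbounded_of_one_lt ((2 : ℝ) ^ (k ^ 2 + k + 4))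
    (by norm_num : (1 : ℝ) < 2)
  refine ⟨8 * k + 30 + v + T0 + 2 * w + V1, ?_⟩
  intro R C J E0 CC CC' _ _ _ _ _ _ _ _ _ M X Y u k0 J₀ n0 B ν υ m F G Φ Ψ Θ V H hV φ hφ
  have hN : (0 : ℝ) < 2 ^ (ps J).card := by positivity
  -- the unweighted moments
  set T : ℝ := (∑ σ : ps J → ZMod 2, In k (finrank (ZMod 2) (Kr M k0 (sx σ)))) /
    2 ^ (ps J).card with hT
  have hT1 : T ≤ 2 * (2 ^ D) ^ k := by
    have h1 := H.ru
    have h2 := H.cn
    have h3 := H.cr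
    have h := T_bound H.hy k0 k V1 D h3 (by omega)
    rw [← hT] at h
    have h4 : |T - (2 ^ D) ^ k| * 2 ^ V1 ≤ (2 ^ D) ^ k * 2 ^ V1 :=
      h.trans (mul_le_mul_of_nonneg_left hV1.le hDk.le)
    have h5 : |T - (2 ^ D) ^ k| ≤ (2 ^ D) ^ k := le_of_mul_le_mul_right h4 (by positivity)
    linarith [(abs_le.1 h5).2]
  -- the bad elements
  obtain ⟨S0, hS0, hS1⟩ := S0_ex' H (w := w) (by omega)
  set S := Bds M k0 S0 υ ν Ψ Φ with hSd
  have hScard := bds_card' H hS0 (by omega)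
  rw [← hSd] at hScard
  set NG : Finset (Fin k → Zs M k0) := univ.filter fun z : Fin k → Zs M k0 =>
    ∃ c : Fin k → ZMod 2, (∃ i, c i ≠ 0) ∧ ∑ i, c i • z i ∈ S with hNG
  have hZ : (Fintype.card (Zs M k0) : ℝ) = 2 ^ (Fintype.card (Ix k0) + D) := card_Zs'' H.hy H.cr
  have hbad : (NG.card : ℝ) * 2 ^ w ≤ 3 * 2 ^ k * (2 ^ D) ^ k * 2 ^ (k * Fintype.card (Ix k0)) := by
    have h1 : (NG.card : ℝ) * (Fintype.card (Zs M k0) : ℝ) ≤
        2 ^ k * ((Fintype.card (Zs M k0) : ℝ) ^ k * S.card) := by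
      convert bad_card k S
    rw [hZ] at h1
    have h2 : (S.card : ℝ) * 2 ^ w ≤ 3 * 2 ^ Fintype.card (Ix k0) := by exact_mod_cast hScard
    have h2' : (3 : ℝ) * 2 ^ Fintype.card (Ix k0) ≤ 3 * 2 ^ (Fintype.card (Ix k0) + D) := by
      have : (2 : ℝ) ^ Fintype.card (Ix k0) ≤ 2 ^ (Fintype.card (Ix k0) + D) :=
        pow_le_pow_right₀ (by norm_num) (by omega)
      linarith
    have hZ0 : (0 : ℝ) < 2 ^ (Fintype.card (Ix k0) + D) := by positivity
    refine le_of_mul_le_mul_right (a := (2 : ℝ) ^ (Fintype.card (Ix k0) + D)) ?_ hZ0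
    calc (NG.card : ℝ) * 2 ^ w * 2 ^ (Fintype.card (Ix k0) + D) =
          ((NG.card : ℝ) * 2 ^ (Fintype.card (Ix k0) + D)) * 2 ^ w := by ring
      _ ≤ (2 ^ k * ((2 ^ (Fintype.card (Ix k0) + D)) ^ k * S.card)) * 2 ^ w :=
          mul_le_mul_of_nonneg_right h1 (by positivity)
      _ = 2 ^ k * (2 ^ (Fintype.card (Ix k0) + D)) ^ k * (S.card * 2 ^ w) := by ring
      _ ≤ 2 ^ k * (2 ^ (Fintype.card (Ix k0) + D)) ^ k * (3 * 2 ^ (Fintype.card (Ix k0) + D)) :=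
          mul_le_mul_of_nonneg_left (h2.trans h2') (by positivity)
      _ = 3 * 2 ^ k * (2 ^ D) ^ k * 2 ^ (k * Fintype.card (Ix k0)) *
          2 ^ (Fintype.card (Ix k0) + D) := by
          rw [pow_add 2 (Fintype.card (Ix k0)) D, mul_pow, ← pow_mul 2 (Fintype.card (Ix k0)) k,
            mul_comm (Fintype.card (Ix k0)) k]
          ring
  -- the counts
  set cs : (Fin k → Zs M k0) → ℝ := fun z =>
    ((univ.filter fun s : Sy (Ix k0) => Sol (yI z) (eI z) s).card : ℝ) with hcs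
  set ns : (Fin k → Zs M k0) → ℝ := fun z =>
    ((univ.filter fun s : Sy (Ix k0) => Sol (yI z) (eI z) s ∧ Nde B s).card : ℝ) with hns
  have e1 : (∑ σ : ps J → ZMod 2, In k (finrank (ZMod 2) (Kr M k0 (sx σ)))) =
      ∑ z ∈ GG M k0 k, cs z := by
    have h := In_sum (k0 := k0) (k := k) H.hy (fun _ => True)
    simp only [if_true, and_true] at h
    rw [h]
    refine sum_congr rfl fun z _ => ?_
    rw [hcs]
    simp only
    congr 1
    rw [← card_Sg' (k0 := k0) fun s => Sol (yI z) (eI z) s]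
    exact congrArg card (filter_congr fun σ _ => Pc_Sol H.hy z σ)
  have e2 : ∀ z : Fin k → Zs M k0, (∑ σ : ps J → ZMod 2, if Pc (yy z) (ee z) σ then
      ((if Nde B (Sg k0 σ) then (1 : ℝ) else 0) - c2) else 0) = ns z - c2 * cs z := by
    intro z
    have h1 : ∀ σ : ps J → ZMod 2, (if Pc (yy z) (ee z) σ then
        ((if Nde B (Sg k0 σ) then (1 : ℝ) else 0) - c2) else 0) =
        (if (Pc (yy z) (ee z) σ ∧ Nde B (Sg k0 σ)) then (1 : ℝ) else 0) -
          c2 * (if Pc (yy z) (ee z) σ then (1 : ℝ) else 0) := by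
      intro σ
      by_cases h : Pc (yy z) (ee z) σ
      · by_cases h' : Nde B (Sg k0 σ)
        · rw [if_pos h, if_pos h', if_pos ⟨h, h'⟩, if_pos h, mul_one]
        · rw [if_pos h, if_neg h', if_neg fun h'' => h' h''.2, if_pos h, mul_one]
      · rw [if_neg h, if_neg fun h'' => h h''.1, if_neg h, mul_zero, sub_zero]
    rw [sum_congr rfl fun σ _ => h1 σ, sum_sub_distrib, ← mul_sum, ← Finset.natCast_card_filter,
      ← Finset.natCast_card_filter]
    have h2 : ((univ.filter fun σ : ps J → ZMod 2 => Pc (yy z) (ee z) σ ∧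
        Nde B (Sg k0 σ)).card : ℝ) = ns z := by
      rw [hns]
      simp only
      congr 1
      exact ((card_eq' fun σ _ => and_congr_left fun _ => Pc_Sol H.hy z σ).trans
        (card_Sg' fun s => Sol (yI z) (eI z) s ∧ Nde B s)).trans (card_eq' fun _ _ => Iff.rfl)
    have h3 : ((univ.filter fun σ : ps J → ZMod 2 => Pc (yy z) (ee z) σ).card : ℝ) = cs z := by
      rw [hcs]
      simp only
      congr 1
      exact ((card_eq' fun σ _ => Pc_Sol H.hy z σ).trans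
        (card_Sg' fun s => Sol (yI z) (eI z) s)).trans (card_eq' fun _ _ => Iff.rfl)
    rw [h2, h3]
  have hcs0 : ∀ z, 0 ≤ cs z := fun z => Nat.cast_nonneg _
  have hns0 : ∀ z, 0 ≤ ns z := fun z => Nat.cast_nonneg _
  have hnc : ∀ z, ns z ≤ cs z := by
    intro z
    rw [hns, hcs]
    simp only
    refine Nat.cast_le.2 (card_le_card fun s hs => ?_)
    rw [mem_filter] at hs ⊢
    exact ⟨mem_univ _, hs.2.1⟩
  have hSy : (Fintype.card (Sy (Ix k0)) : ℝ) = 2 ^ (ps J).card := card_SyI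
  -- the estimate of the size of the parameters
  have hsz : (Fintype.card E0 * 4 ^ k * Fintype.card CC : ℝ) ^ 2 * Fintype.card CC' /
      2 ^ (4 * n0 + 4 * k + 12 + v) ≤ δ := by
    have hE : (Fintype.card E0 : ℝ) ≤ 4 ^ n0 := by exact_mod_cast H.ce
    have hC : (Fintype.card CC : ℝ) ≤ 32 := by exact_mod_cast H.cc
    have hD : (Fintype.card CC' : ℝ) ≤ 4 := by exact_mod_cast H.cd
    rw [div_le_iff₀ (by positivity)]
    have h1 : (Fintype.card E0 * 4 ^ k * Fintype.card CC : ℝ) ^ 2 * Fintype.card CC' ≤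
        (4 ^ n0 * 4 ^ k * 32) ^ 2 * 4 := by gcongr
    have h2 : ((4 : ℝ) ^ n0 * 4 ^ k * 32) ^ 2 * 4 = 2 ^ (4 * n0 + 4 * k + 12) := by
      have h3 : (4 : ℝ) ^ n0 = 2 ^ (2 * n0) := by rw [pow_mul]; norm_num
      have h4 : (4 : ℝ) ^ k = 2 ^ (2 * k) := by rw [pow_mul]; norm_num
      have h5 : (32 : ℝ) = 2 ^ 5 := by norm_num
      rw [h3, h4, h5]
      have h6 : (4 : ℝ) = 2 ^ 2 := by norm_num
      rw [h6]
      ring
    rw [h2] at h1
    refine h1.trans ?_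
    rw [div_lt_iff₀ hδ] at hv
    have hp : (0 : ℝ) < 2 ^ (4 * n0 + 4 * k + 12) := by positivity
    calc (2 : ℝ) ^ (4 * n0 + 4 * k + 12) = 2 ^ (4 * n0 + 4 * k + 12) * 1 := (mul_one _).symm
      _ ≤ 2 ^ (4 * n0 + 4 * k + 12) * (2 ^ v * δ) := mul_le_mul_of_nonneg_left hv.le hp.le
      _ = δ * 2 ^ (4 * n0 + 4 * k + 12 + v) := by rw [pow_add _ (4 * n0 + 4 * k + 12) v]; ring
  have r1 := (H.rν.trans (rich1 (k0 := k0) fun k => ν k = 1))
  have r2 := (H.rυ.trans (rich1 (k0 := k0) fun k => υ k = 1))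
  have r3 := (H.rd.trans (rich1 (k0 := k0) fun k => ν k ≠ υ k))
  have hfr : finrank (ZMod 2) E0 ≤ 2 * n0 := by
    have h1 : Fintype.card E0 = 2 ^ finrank (ZMod 2) E0 := by
      have := Module.card_eq_pow_finrank (K := ZMod 2) (V := E0)
      rwa [ZMod.card] at this
    have h2 := H.ce
    rw [h1, show (4 : ℕ) = 2 ^ 2 by norm_num, ← pow_mul] at h2
    exact (Nat.pow_le_pow_iff_right (by norm_num)).1 h2
  have hcI : (univ.filter fun i : Ix k0 => ν i = 1).card ≤ Fintype.card (Ix k0) := card_le_univ _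
  -- the difference for one family
  have hone : ∀ z ∈ GG M k0 k, |ns z - c2 * cs z| ≤ ε₁ * cs z +
      (if z ∈ NG then 2 ^ (k * k) * (2 : ℝ) ^ (ps J).card / 2 ^ (k * Fintype.card (Ix k0)) else 0) := by
    intro z hz
    by_cases hg : z ∈ NG
    · rw [if_pos hg]
      have h1 : |ns z - c2 * cs z| ≤ cs z := by
        have h2 := mul_nonneg c201.1 (hcs0 z)
        have h3 := mul_le_mul_of_nonneg_right c201.2 (hcs0 z)
        have h4 := hnc z
        have h5 := hns0 z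
        rw [abs_le]
        constructor <;> linarith
      have h2 : cs z ≤ 2 ^ (k * k) * (2 : ℝ) ^ (ps J).card / 2 ^ (k * Fintype.card (Ix k0)) := by
        rw [le_div_iff₀ (by positivity), ← hSy]
        exact sol_bound hz
      have h3 := mul_nonneg hε₁.le (hcs0 z)
      linarith
    · rw [if_neg hg, add_zero]
      obtain ⟨P, hP, hG⟩ := gen_fam' H.sf H.nd H.hm hS1 z (fun c hc hin => hg (by
        rw [hNG, mem_filter]
        exact ⟨mem_univ _, c, hc, hin⟩))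
      exact hcond E0 (Ix k0) CC CC' k (yI z) (eI z) P B _ _ m F G Φ Ψ Θ
        (4 * n0 + 4 * k + 12 + v) H.sf H.ev hP hG (by omega) (by omega) (by omega) (by omega) hsz
  -- the sum
  rw [W_sum H.hy φ]
  have h1 : ∀ z ∈ GG M k0 k, |φ (fun i => (z i : C ⊕ J → ZMod 2)) *
      ∑ σ : ps J → ZMod 2, (if Pc (yy z) (ee z) σ then
      ((if Nde B (Sg k0 σ) then (1 : ℝ) else 0) - c2) else 0)| ≤ ε₁ * cs z +
      (if z ∈ NG then 2 ^ (k * k) * (2 : ℝ) ^ (ps J).card / 2 ^ (k * Fintype.card (Ix k0)) else 0) := by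
    intro z hz
    rw [e2 z, abs_mul]
    calc |φ (fun i => (z i : C ⊕ J → ZMod 2))| * |ns z - c2 * cs z| ≤ 1 * |ns z - c2 * cs z| :=
          mul_le_mul_of_nonneg_right (hφ _) (abs_nonneg _)
      _ = |ns z - c2 * cs z| := one_mul _
      _ ≤ _ := hone z hz
  refine (abs_sum_le_sum_abs _ _).trans ((sum_le_sum h1).trans ?_)
  rw [sum_add_distrib, ← mul_sum, ← e1]
  have hTe : (∑ σ : ps J → ZMod 2, In k (finrank (ZMod 2) (Kr M k0 (sx σ)))) =
      T * 2 ^ (ps J).card := by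
    rw [hT, div_mul_cancel₀ _ hN.ne']
  rw [hTe]
  have h2 : ε₁ * (T * 2 ^ (ps J).card) ≤ ε / 2 * 2 ^ (ps J).card := by
    have h3 : ε₁ * T ≤ ε / 2 := by
      calc ε₁ * T ≤ ε₁ * (2 * (2 ^ D) ^ k) := mul_le_mul_of_nonneg_left hT1 hε₁.le
        _ = ε / 2 := by
          rw [hε₁d]
          field_simp
          ring
    calc ε₁ * (T * 2 ^ (ps J).card) = (ε₁ * T) * 2 ^ (ps J).card := by ring
      _ ≤ _ := mul_le_mul_of_nonneg_right h3 hN.le
  have h3 : (∑ z ∈ GG M k0 k, if z ∈ NG then 2 ^ (k * k) * (2 : ℝ) ^ (ps J).card /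
      2 ^ (k * Fintype.card (Ix k0)) else 0) ≤ ε / 4 * 2 ^ (ps J).card := by
    have h2 : (∑ z ∈ GG M k0 k, if z ∈ NG then 2 ^ (k * k) * (2 : ℝ) ^ (ps J).card /
        2 ^ (k * Fintype.card (Ix k0)) else 0) ≤ ∑ z, if z ∈ NG then
        2 ^ (k * k) * (2 : ℝ) ^ (ps J).card / 2 ^ (k * Fintype.card (Ix k0)) else 0 := by
      refine sum_le_sum_of_subset_of_nonneg (subset_univ _) fun z _ _ => ?_
      split_ifs
      · positivity
      · exact le_refl _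
    refine h2.trans ?_
    rw [← sum_filter, sum_const, nsmul_eq_mul, filter_mem_eq_inter, univ_inter]
    have h3 : (NG.card : ℝ) ≤ 3 * 2 ^ k * (2 ^ D) ^ k * 2 ^ (k * Fintype.card (Ix k0)) / 2 ^ w := by
      rw [le_div_iff₀ (by positivity)]
      exact hbad
    have h4 : (0 : ℝ) < 2 ^ (k * Fintype.card (Ix k0)) := by positivity
    have h5 : (0 : ℝ) < 2 ^ w := by positivity
    calc (NG.card : ℝ) * (2 ^ (k * k) * 2 ^ (ps J).card / 2 ^ (k * Fintype.card (Ix k0))) ≤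
          3 * 2 ^ k * (2 ^ D) ^ k * 2 ^ (k * Fintype.card (Ix k0)) / 2 ^ w *
            (2 ^ (k * k) * 2 ^ (ps J).card / 2 ^ (k * Fintype.card (Ix k0))) :=
          mul_le_mul_of_nonneg_right h3 (by positivity)
      _ = 3 * 2 ^ k * (2 ^ D) ^ k * 2 ^ (k * k) / 2 ^ w * 2 ^ (ps J).card := by
          field_simp
      _ ≤ ε / 4 * 2 ^ (ps J).card := by
          refine mul_le_mul_of_nonneg_right ?_ hN.le
          rw [div_le_iff₀ h5]
          rw [div_lt_iff₀ (by linarith)] at hw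
          linarith
  have h4 : 0 ≤ ε / 4 * 2 ^ (ps J).card := by positivity
  calc ε₁ * (T * 2 ^ (ps J).card) + (∑ z ∈ GG M k0 k, if z ∈ NG then
        2 ^ (k * k) * (2 : ℝ) ^ (ps J).card / 2 ^ (k * Fintype.card (Ix k0)) else 0) ≤
        ε / 2 * 2 ^ (ps J).card + ε / 4 * 2 ^ (ps J).card := add_le_add h2 h3
    _ ≤ ε * 2 ^ (ps J).card := by linarith

end Pool.Agent.N963.JT
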